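import Pool.Agent.H.MP_be6357_al.A
import Pool.Agent.Results.MP_8dad47_al.Yes

set_option autoImplicit false

namespace Pool.Agent.Results.MP_be6357_al.Yes

open Pool.Agent.HShift MvPolynomial

/-- The associated primes of `S / J`. -/
def Ass {S : Type} [CommRing S] (J : Ideal S) : Set (Ideal S) := associatedPrimes S (S ⧸ J)

/-- Persistence of the associated primes of the homological shift ideals of the powers of a
polymatroidal ideal, from the `i`-th power on. -/
theorem result (K : Type) [Field K] (n : ℕ)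
    (I : Ideal (MvPolynomial (Fin n) K)) (hI : IsPolymatroidal I) (i k : ℕ) (hi : 0 < i)
    (hik : i ≤ k) : Ass (HS i (I ^ k)) ⊆ Ass (HS i (I ^ (k + 1))) := by
  classical
  have h0 := MP_8dad47_al.Yes.result K n I hI i k hik
  obtain ⟨B, hB, rfl⟩ := hI.mc
  rcases B.eq_empty_or_nonempty with rfl | hne
  · rw [Set.image_empty, Ideal.span_empty, ← Ideal.zero_eq_bot, zero_pow (by omega),
      zero_pow (by omega)]
  refine ass (I := Ideal.span ((fun a => monomial a (1 : K)) '' B)) fun f =>
    ⟨fun h g hg => h0 ▸ mul_comm g f ▸ Ideal.mul_mem_mul hg h, fun h => ?_⟩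
  simp only [HS_pow hB, mem_ideal_span_monomial_image (x := f), hB.step hik] at h ⊢
  refine fun a ha => ((hB.sm k).hs i).colon hne fun c hc => ?_
  obtain ⟨_, ⟨b, hb, p, hp, rfl⟩, h1⟩ := mem_ideal_span_monomial_image.1
    (h _ (Ideal.subset_span ⟨c, hc, rfl⟩)) (a + c)
    (by rwa [mem_support_iff, coeff_mul_monomial, mul_one, ← mem_support_iff])
  exact ⟨b, hb, p, hp, h1⟩

end Pool.Agent.Results.MP_be6357_al.Yes
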